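import Pool.Agent.H32.QI.Main
import Pool.Agent.H32.QI.Cls

/-!
# Independent bases of quasi-identities relative to the torsion-free groups

Let `G` be a torsion-free group such that `qG` contains the free metabelian group of rank 2, and
suppose that for infinitely many primes `p` the group `G` has no elements `b ≠ 1` and `x` such that
`b` commutes with all `x ^ i * b * x ^ (-i)` and the product of these conjugates for `i < p` is
`1`. Then `qG` is defined among the torsion-free groups by an infinite independent set of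
quasi-identities. In particular this holds for every finitely generated torsion-free group `G`
such that `G` modulo some term of its upper central series embeds in a finite direct product of
metabelian groups, linear groups over commutative rings and virtually residually finite-`l` groups.
-/

set_option autoImplicit false

namespace Pool.Agent.Results.MP_0e32d7_al.IndependentBasis

/-- A quasi-identity in `n` variables: a list of premises `u = 1` and a conclusion `u = 1`. -/
abbrev QuasiIdentity : Type := (n : ℕ) × (List (FreeGroup (Fin n)) × FreeGroup (Fin n))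

/-- The quasi-identity `q` is true in the group `H`. -/
def TrueIn (H : Type) [Group H] (q : QuasiIdentity) : Prop :=
  ∀ f : Fin q.1 → H, (∀ p ∈ q.2.1, FreeGroup.lift f p = 1) → FreeGroup.lift f q.2.2 = 1

/-- The group `H` is torsion-free. -/
def TorsionFree (H : Type) [Group H] : Prop :=
  ∀ h : H, h ≠ 1 → ∀ k : ℕ, 0 < k → h ^ k ≠ 1

/-- `L` is metabelian, or embeds in `GL_n(R)` for some commutative ring `R` and some `n`, or has a
subgroup of finite index which is residually a finite `l`-group for some prime `l`. -/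
def Tame (L : Type) [Group L] : Prop :=
  derivedSeries L 2 = ⊥ ∨
  (∃ (R : Type) (_ : CommRing R) (n : ℕ) (ψ : L →* Matrix.GeneralLinearGroup (Fin n) R),
    Function.Injective ψ) ∨
  (∃ (l : ℕ) (H : Subgroup L), l.Prime ∧ H.index ≠ 0 ∧
    ∀ h : H, h ≠ 1 → ∃ K : Subgroup H, K.Normal ∧ (∃ k : ℕ, K.index = l ^ k) ∧ h ∉ K)

theorem result (G : Type) [Group G] (htf : TorsionFree G)
    (hF : ∀ q : QuasiIdentity, TrueIn G q →
      TrueIn (FreeGroup (Fin 2) ⧸ derivedSeries (FreeGroup (Fin 2)) 2) q)
    (hG : (∀ N : ℕ, ∃ p, N < p ∧ p.Prime ∧ ∀ b x : G,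
        (∀ i : ℕ, Commute b (x ^ i * b * (x ^ i)⁻¹)) →
        ((List.range p).map fun i => x ^ i * b * (x ^ i)⁻¹).prod = 1 → b = 1) ∨
      (Group.FG G ∧ ∃ (k m : ℕ) (L : Fin m → Type) (_ : ∀ i, Group (L i))
        (φ : ∀ i, G →* L i), (∀ i, Tame (L i)) ∧
        ∀ g : G, (∀ i, φ i g = 1) → g ∈ Subgroup.upperCentralSeries G k)) :
    ∃ S : Set QuasiIdentity, S.Infinite ∧
      (∀ (H : Type) [Group H], TorsionFree H →
        ((∀ q ∈ S, TrueIn H q) ↔ (∀ q : QuasiIdentity, TrueIn G q → TrueIn H q))) ∧
      (∀ σ ∈ S, ∃ (H : Type) (_ : Group H),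
        TorsionFree H ∧ (∀ q ∈ S, q ≠ σ → TrueIn H q) ∧ ¬ TrueIn H σ) := by
  have hno : ∀ N : ℕ, ∃ p, N < p ∧ p.Prime ∧ Pool.Agent.H32.QI.NoPair G p := by
    rcases hG with h | ⟨hfg, k, m, L, _, φ, hL, hker⟩
    · exact h
    · have hC : ∀ i, Pool.Agent.H32.QI.PropC (φ i) := by
        intro i
        rcases hL i with h | ⟨R, _, n, ψ, hψ⟩ | ⟨l, H, hl, hH, hres⟩
        · exact Pool.Agent.H32.QI.cls_metab_hom hfg (φ i) h
        · exact Pool.Agent.H32.QI.cls_linear_hom hfg (φ i) R n ψ hψ
        · exact Pool.Agent.H32.QI.cls_residual_hom (φ i) l hl H hH hres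
      obtain ⟨N₀, hN₀⟩ := Pool.Agent.H32.QI.cls_noPair htf k m L φ hker hC
      intro N
      obtain ⟨p, hp1, hp2⟩ := Nat.exists_infinite_primes (N + N₀ + 1)
      exact ⟨p, by omega, hp2, hN₀ p hp2 (by omega)⟩
  exact Pool.Agent.H32.QI.indep_of_noPair G hF hno

end Pool.Agent.Results.MP_0e32d7_al.IndependentBasis
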